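import Pool.Agent.H235R2.QLP.Final

/-!
# Binary codes: the asymptotic rate is strictly below the second linear programming bound

For every `0 < δ < 1/2` the largest asymptotic rate `R(δ)` of binary codes (linear or not) of
relative distance `δ` is strictly smaller than the bound `B(δ)` of McEliece, Rodemich, Rumsey and
Welch (second linear programming bound, never weaker than the first one).
-/

namespace Pool.Agent.Results.MP_0430e4_lc.BelowMRRW

open Filter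

/-- `A(n,d)`: the largest size of a binary code of length `n` any two distinct words of which
differ in at least `d` coordinates. -/
noncomputable def A (n d : ℕ) : ℕ :=
  sSup {k | ∃ C : Finset (Fin n → Bool),
    (∀ x ∈ C, ∀ y ∈ C, x ≠ y → d ≤ hammingDist x y) ∧ C.card = k}

/-- `R(δ) = limsup (1/n) log₂ A(n, ⌈δ n⌉)`. -/
noncomputable def R (δ : ℝ) : ℝ :=
  limsup (fun n : ℕ => Real.logb 2 (A n ⌈δ * n⌉₊) / n) atTop

/-- The binary entropy function `H₂(x) = -x log₂ x - (1-x) log₂ (1-x)`. -/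
noncomputable def H2 (x : ℝ) : ℝ := -x * Real.logb 2 x - (1 - x) * Real.logb 2 (1 - x)

/-- `h(x) = H₂(1/2 - 1/2 √(1-x))`. -/
noncomputable def h (x : ℝ) : ℝ := H2 (1 / 2 - 1 / 2 * √(1 - x))

/-- The second linear programming bound
`B(δ) = min_{0 < u ≤ 1 - 2δ} [1 + h(u²) - h(u² + 2δu + 2δ)]`. -/
noncomputable def B (δ : ℝ) : ℝ :=
  sInf ((fun u : ℝ => 1 + h (u ^ 2) - h (u ^ 2 + 2 * δ * u + 2 * δ)) '' Set.Ioc 0 (1 - 2 * δ))

lemma H2_eq (x : ℝ) : H2 x = Pool.Agent.H235R2.QLP.Hq 2 x := by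
  rw [Pool.Agent.H235R2.QLP.Hq2_eq]
  unfold H2 Real.logb Real.negMulLog
  ring

lemma h_eq (x : ℝ) : h x = Pool.Agent.H235R2.QLP.h2 x := by
  unfold h Pool.Agent.H235R2.QLP.h2
  rw [H2_eq]

lemma bddAbove_A (n d : ℕ) : BddAbove {k | ∃ C : Finset (Fin n → Bool),
    (∀ x ∈ C, ∀ y ∈ C, x ≠ y → d ≤ hammingDist x y) ∧ C.card = k} := by
  refine ⟨Fintype.card (Fin n → Bool), ?_⟩
  rintro k ⟨C, -, rfl⟩
  exact Finset.card_le_univ C

lemma A_pos (n d : ℕ) : 1 ≤ A n d := by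
  refine le_csSup (bddAbove_A n d) ⟨{fun _ => false}, ?_, by simp⟩
  intro x hx y hy hxy
  rw [Finset.mem_singleton] at hx hy
  exact absurd (hx.trans hy.symm) hxy

lemma A_mem (n d : ℕ) : ∃ C : Finset (Fin n → Bool),
    (∀ x ∈ C, ∀ y ∈ C, x ≠ y → d ≤ hammingDist x y) ∧ C.card = A n d := by
  have h : (A n d) ∈ {k | ∃ C : Finset (Fin n → Bool),
      (∀ x ∈ C, ∀ y ∈ C, x ≠ y → d ≤ hammingDist x y) ∧ C.card = k} :=
    Nat.sSup_mem ⟨0, ∅, by simp, by simp⟩ (bddAbove_A n d)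
  exact h

lemma rate_nonneg (δ : ℝ) (n : ℕ) : 0 ≤ Real.logb 2 (A n ⌈δ * n⌉₊) / n := by
  have h1 : (1 : ℝ) ≤ A n ⌈δ * n⌉₊ := by exact_mod_cast A_pos n _
  have h2 : 0 ≤ Real.logb 2 (A n ⌈δ * n⌉₊) := Real.logb_nonneg (by norm_num) h1
  positivity

/-- An eventual bound on the rate of codes is a bound on `R`. -/
lemma R_le {δ β : ℝ} (h : ∃ n0 : ℕ, ∀ n ≥ n0, ∀ C : Finset (Fin n → Bool),
      (∀ x ∈ C, ∀ y ∈ C, x ≠ y → δ * n ≤ hammingDist x y) →
      (C.card : ℝ) ≤ (2 : ℝ) ^ (β * n)) : R δ ≤ β := by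
  obtain ⟨n0, hn0⟩ := h
  refine limsup_le_of_le ?_ ?_
  · refine IsBoundedUnder.isCoboundedUnder_le ⟨0, ?_⟩
    rw [eventually_map]
    exact Eventually.of_forall fun n => rate_nonneg δ n
  · filter_upwards [eventually_ge_atTop (max n0 1)] with n hn
    have hn1 : n0 ≤ n := le_trans (le_max_left _ _) hn
    have hn2 : 1 ≤ n := le_trans (le_max_right _ _) hn
    have hnR : (0 : ℝ) < n := by exact_mod_cast hn2
    obtain ⟨C, hC, hcard⟩ := A_mem n ⌈δ * n⌉₊
    have h1 := hn0 n hn1 C (fun x hx y hy hxy => le_trans (Nat.le_ceil _)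
      (by exact_mod_cast hC x hx y hy hxy))
    rw [hcard] at h1
    have hA : (0 : ℝ) < A n ⌈δ * n⌉₊ := by exact_mod_cast A_pos n _
    rw [div_le_iff₀ hnR]
    exact (Real.logb_le_iff_le_rpow (by norm_num) hA).mpr h1

/-- For every `0 < δ < 1/2`, the asymptotic rate `R(δ)` of binary codes of relative distance `δ` is
strictly smaller than the second linear programming bound `B(δ)`. -/
theorem result (δ : ℝ) (h0 : 0 < δ) (h1 : δ < 1 / 2) : R δ < B δ := by
  have hcard : Fintype.card Bool = 2 := Fintype.card_bool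
  obtain ⟨β, -, hβ, hn⟩ := Pool.Agent.H235R2.QLP.codes Bool (by rw [hcard]) h0
    (by rw [hcard]; norm_num; linarith)
  rw [hcard] at hβ hn
  refine lt_of_le_of_lt (R_le hn) (lt_of_lt_of_le hβ ?_)
  unfold B
  refine le_csInf ⟨_, ⟨1 - 2 * δ, ⟨by linarith, le_rfl⟩, rfl⟩⟩ ?_
  rintro b ⟨u, ⟨hu0, hu1⟩, rfl⟩
  have hach := Pool.Agent.H235R2.QLP.ach_lp2 h0 hu0.le hu1
  have h3 := Pool.Agent.H235R2.QLP.Bq_le_chord (q := 2) (by norm_num) zero_le_one le_rfl
    (by simpa using h0.le) hach hach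
  simp only [one_mul, sub_self, zero_mul, add_zero] at h3
  refine h3.trans (le_of_eq ?_)
  show Pool.Agent.H235R2.QLP.lp2 δ u = 1 + h (u ^ 2) - h (u ^ 2 + 2 * δ * u + 2 * δ)
  unfold Pool.Agent.H235R2.QLP.lp2
  rw [h_eq, h_eq]

end Pool.Agent.Results.MP_0430e4_lc.BelowMRRW
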