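import Pool.Agent.W306.GV.Trans
import Pool.Agent.W306.GV.Ent

/-!
# The Gilbert–Varshamov bound is a first order transition in the number of codes

Let `0 < δ < 1/2`. Among all sets of `M = ⌊2^{rn}⌋` words of length `n`, let `prob` be the proportion of
those which are codes of minimum distance at least `δ n`. For `r < 1 - H₂(δ)` the proportion per word,
`prob^{1/M}`, tends to `1`; for `r > 1 - H₂(δ)`, however close, it is exponentially small:
`prob^{1/M} ≤ 2^{-(c(δ) - ε) n}` with `c(δ) = (H₂(1/2 - √(δ(1-δ))) - (1 - H₂(δ)))/2 > 0`, half of the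
distance between the exponents of McEliece–Rodemich–Rumsey–Welch and Gilbert–Varshamov.
-/

set_option autoImplicit false

namespace Pool.Agent.Results.MP_0430e4_lc.CountingTransition

open Finset Filter

/-- The binary entropy function `H₂(x) = -x log₂ x - (1-x) log₂ (1-x)`. -/
noncomputable def H2 (x : ℝ) : ℝ := -x * Real.logb 2 x - (1 - x) * Real.logb 2 (1 - x)

/-- `C` is a code of minimum distance at least `d`. -/
def IsCode {n : ℕ} (d : ℕ) (C : Finset (Fin n → Bool)) : Prop :=
  ∀ x ∈ C, ∀ y ∈ C, x ≠ y → d ≤ hammingDist x y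

open scoped Classical in
/-- The proportion of codes of minimum distance at least `d` among the sets of `M` words. -/
noncomputable def prob (n d M : ℕ) : ℝ :=
  (((powersetCard M (univ : Finset (Fin n → Bool))).filter (IsCode d)).card : ℝ) /
    ((powersetCard M (univ : Finset (Fin n → Bool))).card : ℝ)

/-- Half of the distance between the exponents of the first linear programming bound and of the
Gilbert–Varshamov bound. -/
noncomputable def c (δ : ℝ) : ℝ := (H2 (1 / 2 - √(δ * (1 - δ))) - (1 - H2 δ)) / 2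

lemma H2_eq (x : ℝ) : H2 x = Real.binEntropy x / Real.log 2 := by
  unfold H2 Real.logb
  rw [Real.binEntropy_eq_negMulLog_add_negMulLog_one_sub]
  unfold Real.negMulLog
  ring

lemma prob_eq (n d M : ℕ) : prob n d M =
    ((Pool.Agent.W306.GV.codes n d M).card : ℝ) / ((2 ^ n : ℕ).choose M : ℝ) := by
  unfold prob Pool.Agent.W306.GV.codes
  congr 2
  · congr 1
    ext C
    simp only [Finset.mem_filter]
    rfl
  · rw [Finset.card_powersetCard, Finset.card_univ]
    simp

lemma two_pow_eq (x : ℝ) (n : ℕ) : (2 : ℝ) ^ (x * n) = Real.exp (x * Real.log 2 * n) := by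
  rw [Real.rpow_def_of_pos (by norm_num)]
  congr 1
  ring

lemma c_eq (δ : ℝ) : c δ = Pool.Agent.W306.GV.cc δ / Real.log 2 := by
  have hL : Real.log 2 ≠ 0 := (Real.log_pos (by norm_num)).ne'
  unfold c Pool.Agent.W306.GV.cc Pool.Agent.W306.GV.w1
  rw [H2_eq, H2_eq]
  field_simp
  ring

/-- **Main theorem.** The per-word proportion of codes jumps from `1` to at most `2^{-c(δ) n}` at the
Gilbert–Varshamov bound. -/
theorem result (δ : ℝ) (h0 : 0 < δ) (h1 : δ < 1 / 2) :
    0 < c δ ∧
    (∀ r : ℝ, 0 < r → r < 1 - H2 δ → Tendsto (fun n : ℕ =>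
      prob n ⌈δ * n⌉₊ ⌊(2 : ℝ) ^ (r * n)⌋₊ ^ (1 / (⌊(2 : ℝ) ^ (r * n)⌋₊ : ℝ))) atTop (nhds 1)) ∧
    (∀ r : ℝ, 1 - H2 δ < r → ∀ ε : ℝ, 0 < ε → ∀ᶠ n : ℕ in atTop,
      prob n ⌈δ * n⌉₊ ⌊(2 : ℝ) ^ (r * n)⌋₊ ^ (1 / (⌊(2 : ℝ) ^ (r * n)⌋₊ : ℝ)) ≤
        (2 : ℝ) ^ (-((c δ - ε) * n))) := by
  have hL : 0 < Real.log 2 := Real.log_pos (by norm_num)
  have hH : H2 δ = Real.binEntropy δ / Real.log 2 := H2_eq δ
  refine ⟨?_, ?_, ?_⟩
  · rw [c_eq]
    exact div_pos (Pool.Agent.W306.GV.cc_pos h0 h1) hL
  · intro r hr0 hr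
    set θ : ℝ := (1 - H2 δ - r) * Real.log 2 with hθ
    have hθ0 : 0 < θ := mul_pos (by linarith) hL
    have hθe : r * Real.log 2 + Real.binEntropy δ = Real.log 2 - θ := by
      rw [hθ, hH]
      field_simp
      ring
    -- the upper estimate `1`
    have hle1 : ∀ n d M : ℕ, prob n d M ≤ 1 := by
      intro n d M
      classical
      unfold prob
      apply div_le_one_of_le₀ _ (Nat.cast_nonneg _)
      exact_mod_cast Finset.card_filter_le _ _
    have hlow : ∀ᶠ n : ℕ in atTop, 1 - Real.exp (-(θ / 2 * n)) ≤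
        prob n ⌈δ * n⌉₊ ⌊(2 : ℝ) ^ (r * n)⌋₊ ^ (1 / (⌊(2 : ℝ) ^ (r * n)⌋₊ : ℝ)) := by
      filter_upwards [Pool.Agent.W306.GV.log_small (show 0 < θ / 2 by positivity), eventually_ge_atTop 1] with n g1 hn1
      have hnR : (0 : ℝ) < n := by exact_mod_cast hn1
      set M := ⌊(2 : ℝ) ^ (r * n)⌋₊ with hM
      have hM1 : 1 ≤ M := by
        rw [hM, Nat.one_le_floor_iff]
        exact Real.one_le_rpow (by norm_num) (by positivity)
      have hMR : (0 : ℝ) < M := by exact_mod_cast hM1
      have hMle : (M : ℝ) ≤ Real.exp (r * Real.log 2 * n) := (Nat.floor_le (by positivity)).trans (le_of_eq (two_pow_eq r n))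
      have hd : 1 ≤ ⌈δ * n⌉₊ := Nat.ceil_pos.2 (by positivity)
      have h2n : (2 : ℝ) ^ n = Real.exp (Real.log 2 * n) := by
        rw [mul_comm, Real.exp_nat_mul, Real.exp_log (by norm_num)]
      have hMV : (M : ℝ) * ∑ k ∈ range ⌈δ * n⌉₊, (n.choose k : ℝ) ≤ Real.exp (-(θ / 2 * n)) * 2 ^ n := by
        have e5 : (n : ℝ) + 1 ≤ Real.exp (θ / 2 * n) := by
          rw [← Real.log_le_iff_le_exp (by positivity)]
          exact g1
        calc (M : ℝ) * ∑ k ∈ range ⌈δ * n⌉₊, (n.choose k : ℝ)
            ≤ Real.exp (r * Real.log 2 * n) * (Real.exp (θ / 2 * n) * Real.exp (Real.binEntropy δ * n)) := by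
              refine mul_le_mul hMle ?_ (Finset.sum_nonneg fun _ _ => Nat.cast_nonneg _) (Real.exp_pos _).le
              exact (Pool.Agent.W306.GV.ball_le h0 h1 n).trans
                (mul_le_mul_of_nonneg_right e5 (Real.exp_pos _).le)
          _ = Real.exp (-(θ / 2 * n)) * 2 ^ n := by
              rw [h2n, ← Real.exp_add, ← Real.exp_add, ← Real.exp_add]
              congr 1
              have : (r * Real.log 2 + Real.binEntropy δ) * n = (Real.log 2 - θ) * n := by rw [hθe]
              linarith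
      have hexp1 : Real.exp (-(θ / 2 * n)) ≤ 1 := by
        rw [Real.exp_le_one_iff]
        have : 0 ≤ θ / 2 * n := by positivity
        linarith
      have hpn : (0 : ℝ) < 2 ^ n := by positivity
      have hMn : M ≤ 2 ^ n := by
        have : (M : ℝ) ≤ ((2 ^ n : ℕ) : ℝ) := by
          push_cast
          rw [h2n]
          refine hMle.trans (Real.exp_le_exp.2 ?_)
          have hb := Real.binEntropy_nonneg h0.le (by linarith : δ ≤ 1)
          nlinarith
        exact_mod_cast this
      have hpl := Pool.Agent.W306.GV.prob_lower hd hMn (hMV.trans (by nlinarith))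
      rw [← prob_eq] at hpl
      set x : ℝ := (M : ℝ) * (∑ k ∈ range ⌈δ * n⌉₊, (n.choose k : ℝ)) / 2 ^ n with hx
      have hx1 : x ≤ Real.exp (-(θ / 2 * n)) := by
        rw [hx, div_le_iff₀ hpn]
        exact hMV
      have hx2 : 0 ≤ 1 - x := by linarith
      calc 1 - Real.exp (-(θ / 2 * n)) ≤ 1 - x := by linarith
        _ = ((1 - x) ^ M) ^ (1 / (M : ℝ)) := by
            rw [← Real.rpow_natCast, ← Real.rpow_mul hx2, mul_one_div_cancel hMR.ne', Real.rpow_one]
        _ ≤ _ := Real.rpow_le_rpow (pow_nonneg hx2 _) hpl (by positivity)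
    have hlim : Tendsto (fun n : ℕ => 1 - Real.exp (-(θ / 2 * n))) atTop (nhds (1 - 0)) := by
      apply tendsto_const_nhds.sub
      apply Real.tendsto_exp_atBot.comp
      apply tendsto_neg_atTop_atBot.comp
      exact tendsto_natCast_atTop_atTop.const_mul_atTop (by positivity)
    rw [sub_zero] at hlim
    refine tendsto_of_tendsto_of_tendsto_of_le_of_le' hlim tendsto_const_nhds hlow ?_
    refine Eventually.of_forall fun n => ?_
    refine Real.rpow_le_one ?_ (hle1 _ _ _) (by positivity)
    unfold prob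
    positivity
  · intro r hr ε hε
    set θ : ℝ := (r - (1 - H2 δ)) * Real.log 2 / 2 with hθ
    have hθ0 : 0 < θ := by
      have := mul_pos (sub_pos.2 hr) hL
      linarith
    have hup := Pool.Agent.W306.GV.prob_upper (ε := ε * Real.log 2) h0 h1 (by positivity) hθ0
    have c3 : ∀ᶠ n : ℕ in atTop, Real.log 2 / θ ≤ (n : ℝ) :=
      tendsto_natCast_atTop_atTop.eventually_ge_atTop _
    filter_upwards [hup, c3, eventually_ge_atTop 1] with n hn g3 hn1
    have hnR : (0 : ℝ) < n := by exact_mod_cast hn1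
    rw [div_le_iff₀ hθ0] at g3
    set M := ⌊(2 : ℝ) ^ (r * n)⌋₊ with hM
    have hrlog : r * Real.log 2 = Real.log 2 - Real.binEntropy δ + 2 * θ := by
      rw [hθ, hH]
      field_simp
      ring
    have hent : Real.binEntropy δ ≤ Real.log 2 := Real.binEntropy_le_log_two
    have hMge : Real.exp ((Real.log 2 - Real.binEntropy δ + θ) * n) ≤ M := by
      have h3 : (2 : ℝ) ^ (r * n) < M + 1 := Nat.lt_floor_add_one _
      rw [two_pow_eq, hrlog] at h3
      have h4 : (2 : ℝ) ≤ Real.exp (θ * n) := by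
        rw [← Real.log_le_iff_le_exp (by norm_num)]
        linarith
      have h5 : Real.exp ((Real.log 2 - Real.binEntropy δ + 2 * θ) * n) =
          Real.exp ((Real.log 2 - Real.binEntropy δ + θ) * n) * Real.exp (θ * n) := by
        rw [← Real.exp_add]
        congr 1
        ring
      have h6 : 1 ≤ Real.exp ((Real.log 2 - Real.binEntropy δ + θ) * n) := by
        apply Real.one_le_exp
        have : 0 ≤ Real.log 2 - Real.binEntropy δ + θ := by linarith
        positivity
      rw [h5] at h3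
      nlinarith
    have hM0 : (0 : ℝ) < M := lt_of_lt_of_le (Real.exp_pos _) hMge
    have h3 := hn M hMge
    rw [← prob_eq] at h3
    have hp0 : 0 ≤ prob n ⌈δ * n⌉₊ M := by
      unfold prob
      positivity
    calc prob n ⌈δ * n⌉₊ M ^ (1 / (M : ℝ))
        ≤ (Real.exp (-((Pool.Agent.W306.GV.cc δ - ε * Real.log 2) * n)) ^ M) ^ (1 / (M : ℝ)) :=
          Real.rpow_le_rpow hp0 h3 (by positivity)
      _ = Real.exp (-((Pool.Agent.W306.GV.cc δ - ε * Real.log 2) * n)) := by
          rw [← Real.rpow_natCast, ← Real.rpow_mul (Real.exp_pos _).le, mul_one_div_cancel hM0.ne', Real.rpow_one]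
      _ = (2 : ℝ) ^ (-((c δ - ε) * n)) := by
          rw [Real.rpow_def_of_pos (by norm_num), c_eq]
          congr 1
          field_simp

end Pool.Agent.Results.MP_0430e4_lc.CountingTransition
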