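import Pool.Agent.W896.MO.EncFinal

/-!
# Codes with fast encoders of sublinear memory, with a stack

The best asymptotic rate `R(δ)` of binary codes is determined here for the codes which have an
encoder running in linear time with sublinear memory and, in addition, a stack (pushdown store) of
unlimited height on which arbitrary symbols can be put: it is zero, for every `δ > 0`. An encoder
which respects only one of the two bounds can be good: there are codes of positive rate and distance
which are encodable in linear time (Gelfand-Dobrushin-Pinsker, Spielman), and in quadratic time
every linear code is encodable with logarithmic memory.

The model is non-uniform; the code, and the encoder, need not be linear, and the order of the reads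
and writes may depend on the message. The memory is `log₂ s` bits, where `s` is the number of the
nodes of the program. All computations and all operations on the stack are free of charge; the time
`T` is the number of the reads of message bits and of the writes of bits of the codeword. The
encoder may fail for most messages: it is sufficient that it is correct on a fraction of
`2 ^ (- π)` of them.

The first part of the theorem is the quantitative form: if `T ≤ t k` for the message length `k` and
`129 t² k ≤ u d` for the minimum distance `d`, then `k ≤ u ^ (16 t + 2) * (log₂ s + π + 1)`. So for
fixed positive rate and relative distance a memory of `o(n)` bits needs superlinear time, of order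
at least `n * log (n / S) / log log (n / S)` for a memory of `S` bits.

Proof. A computation is cut into pieces: by an induction on the nesting of the pushes and pops its
outputs are covered by `O (T / a)` procedures with at most `4 a` reads and writes and at most four
holes each, in which a part of the computation that begins and ends at the same height of the stack
has been left out; only the entry and exit nodes of the holes are kept. So there are only
`s ^ (O (T / a))` families of procedures. For every message at least half of the message bits are
read in at most `c = 16 t` of the procedures, and therefore, for some `c` of the procedures, a
fraction of `(a / 2 T) ^ c` of the message bits are read in these only. The other procedures form a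
decision tree which on many messages leaves so many bits unread that two different messages with
the same family reach the same leaf. The codewords of these messages differ only in bits written in
the `c` procedures, that is in at most `4 a c < d` places.
-/

set_option autoImplicit false

namespace Pool.Agent.Results.MP_0430e4_lc.EncoderStack

open Filter Topology Pool.Agent.W896.MO

/-- First part: let the values of `E` on different messages of `k` bits differ in at least `d ≥ 1`
of the `n` places, and let `P` be a program with a stack, with at most `s` nodes, which computes
`E x` from `x` with at most `T` reads and writes, for at least a fraction of `2 ^ (- π)` of the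
messages `x`. If `T ≤ t k` and `129 t² k ≤ u d` then `k ≤ u ^ (16 t + 2) * (log₂ s + π + 1)`.

Second part: if for every `n` the code `E n` of length `n` has `2 ^ (k n)` words and minimum
distance at least `δ n`, `δ > 0`, and is encoded by the program `P n` in the above sense with at
most `τ n` reads and writes, and if `(log₂ s + π) / n → 0`, then the rates `k n / n` tend to
zero. -/
theorem result :
    (∀ (k n T d t u π s : ℕ) (P : Prog (Fin k) (Fin n) Bool), Fintype.card P.State ≤ s → 1 ≤ d →
      T ≤ t * k → 129 * t ^ 2 * k ≤ u * d →
      ∀ E : (Fin k → Bool) → Fin n → Bool, (∀ x x', x ≠ x' → d ≤ hammingDist (E x) (E x')) →
      2 ^ k ≤ 2 ^ π * Nat.card {x // P.Computes x (E x) T} →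
      (k : ℝ) ≤ (u : ℝ) ^ (16 * t + 2) * (Real.logb 2 s + π + 1)) ∧
    (∀ (δ τ : ℝ), 0 < δ → ∀ (k T π : ℕ → ℕ) (P : ∀ n, Prog (Fin (k n)) (Fin n) Bool)
      (E : ∀ n, (Fin (k n) → Bool) → Fin n → Bool), (∀ n, (T n : ℝ) ≤ τ * n) →
      (∀ n x x', x ≠ x' → δ * n ≤ hammingDist (E n x) (E n x')) →
      (∀ n, 2 ^ k n ≤ 2 ^ π n * Nat.card {x // (P n).Computes x (E n x) (T n)}) →
      Tendsto (fun n => (Real.logb 2 (Fintype.card (P n).State) + π n) / n) atTop (𝓝 0) →
      Tendsto (fun n => (k n : ℝ) / n) atTop (𝓝 0)) :=
  ⟨fun _ _ _ _ _ _ _ _ P hs hd hT hu E hE hA => enc_main P hs hd hT hu E hE hA,
    fun _ _ hδ k T π P E hT hE hA hS => rate_zero hδ k T π P E hT hE hA hS⟩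

end Pool.Agent.Results.MP_0430e4_lc.EncoderStack
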