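import Pool.Agent.W483.FB.Full2

/-!
# Binary codes: the matrix linear programming bound

A bound on the asymptotic rate `R(δ)` of binary codes for every symmetric matrix `0 ≤ Y ≤ 1` with
upper left entry `1 - 2δ`. Matrices of size one give the first bound of McEliece, Rodemich, Rumsey
and Welch, matrices of size two contain the second one. Explicit consequences for
`1/2 - 1/π ≤ δ < 1/2`.
-/

namespace Pool.Agent.Results.MP_0430e4_lc.MatrixBound

open Filter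

/-- `A(n,d)`: the largest size of a binary code of length `n` any two distinct words of which
differ in at least `d` coordinates. -/
noncomputable def A (n d : ℕ) : ℕ :=
  sSup {k | ∃ C : Finset (Fin n → Bool),
    (∀ x ∈ C, ∀ y ∈ C, x ≠ y → d ≤ hammingDist x y) ∧ C.card = k}

/-- `R(δ) = limsup (1/n) log₂ A(n, ⌈δ n⌉)`. -/
noncomputable def R (δ : ℝ) : ℝ :=
  limsup (fun n : ℕ => Real.logb 2 (A n ⌈δ * n⌉₊) / n) atTop

/-- The binary entropy function `H₂(x) = -x log₂ x - (1-x) log₂ (1-x)`. -/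
noncomputable def H2 (x : ℝ) : ℝ := -x * Real.logb 2 x - (1 - x) * Real.logb 2 (1 - x)

/-- `h(x) = H₂(1/2 - 1/2 √(1-x))`. -/
noncomputable def h (x : ℝ) : ℝ := H2 (1 / 2 - 1 / 2 * √(1 - x))

/-- The second linear programming bound
`B(δ) = min_{0 < u ≤ 1 - 2δ} [1 + h(u²) - h(u² + 2δu + 2δ)]`. -/
noncomputable def B (δ : ℝ) : ℝ :=
  sInf ((fun u : ℝ => 1 + h (u ^ 2) - h (u ^ 2 + 2 * δ * u + 2 * δ)) '' Set.Ioc 0 (1 - 2 * δ))

/-- The trace `Tr h(X)`: the sum of `h` over the real roots of the characteristic polynomial of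
`X` with multiplicity, that is, over the eigenvalues if `X` is symmetric. -/
noncomputable def trh {ι : Type} [Fintype ι] [DecidableEq ι] (X : Matrix ι ι ℝ) : ℝ :=
  (X.charpoly.roots.map h).sum

/-- (1) For every positive semidefinite real matrix `Y` with `Y ≤ 1` and upper left entry `1 - 2δ`,
`0 < δ`, one has `R(δ) ≤ Tr h(Y²) - Tr h((Y²)')`, where `'` deletes the first row and column.
(2) For every `0 < u ≤ 1 - 2δ` some such matrix of size two gives the expression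
`1 + h(u²) - h(u² + 2δu + 2δ)`. (3) For `1/2 - 1/π ≤ δ < 1/2`: `R(δ) ≤ h(π² (1 - 2δ)² / 4) / 2`.
(4) `R(1/2 - 1/π) ≤ 1/2 < B(1/2 - 1/π)`. -/
theorem result :
    (∀ (n : ℕ) (Y : Matrix (Fin (n + 1)) (Fin (n + 1)) ℝ), Y.PosSemidef → (1 - Y).PosSemidef →
      ∀ δ : ℝ, 0 < δ → Y 0 0 = 1 - 2 * δ →
        R δ ≤ trh (Y * Y) - trh ((Y * Y).submatrix Fin.succ Fin.succ)) ∧
    (∀ δ u : ℝ, 0 < δ → 0 < u → u ≤ 1 - 2 * δ →
      ∃ Y : Matrix (Fin 2) (Fin 2) ℝ, Y.PosSemidef ∧ (1 - Y).PosSemidef ∧ Y 0 0 = 1 - 2 * δ ∧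
        trh (Y * Y) - trh ((Y * Y).submatrix (Fin.succ (n := 1)) (Fin.succ (n := 1))) =
          1 + h (u ^ 2) - h (u ^ 2 + 2 * δ * u + 2 * δ)) ∧
    (∀ δ : ℝ, 1 / 2 - 1 / Real.pi ≤ δ → δ < 1 / 2 →
      R δ ≤ h (Real.pi ^ 2 * (1 - 2 * δ) ^ 2 / 4) / 2) ∧
    R (1 / 2 - 1 / Real.pi) ≤ 1 / 2 ∧ 1 / 2 < B (1 / 2 - 1 / Real.pi) :=
  ⟨Pool.Agent.W483.FB.full_mat, Pool.Agent.W483.FB.two, Pool.Agent.W483.FB.full_curve,
    Pool.Agent.W483.FB.full_half, Pool.Agent.W483.FB.full_num⟩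

end Pool.Agent.Results.MP_0430e4_lc.MatrixBound
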