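import Pool.Agent.W306.GV.Lower

/-!
# The Gilbert–Varshamov bound is sharp inside random subsets of the Hamming cube

Let `0 < δ < 1/2`. Choose a subset `S` of `{0,1}^n` with `|S| = ⌊2^{sn}⌋` at random and ask for the
largest code of minimum distance at least `δ n` all of whose words belong to `S`. For `s = 1` this is the
problem of the asymptotic rate `R(δ)`. We answer it for all `s` up to the midpoint of the
Gilbert–Varshamov exponent `1 - H₂(δ)` and the exponent `H₂(1/2 - √(δ(1-δ)))` of McEliece, Rodemich,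
Rumsey and Welch: the rate is `min(s, 1 - H₂(δ))`, for all but an exponentially small proportion of the
sets `S`. So for `1 - H₂(δ) ≤ s ≤ midpoint` the Gilbert–Varshamov bound is sharp inside almost all `S`.
-/

set_option autoImplicit false

namespace Pool.Agent.Results.MP_0430e4_lc.RandomSubsets

open Finset Filter

/-- The binary entropy function `H₂(x) = -x log₂ x - (1-x) log₂ (1-x)`. -/
noncomputable def H2 (x : ℝ) : ℝ := -x * Real.logb 2 x - (1 - x) * Real.logb 2 (1 - x)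

/-- The exponent of the first linear programming bound. -/
noncomputable def LP (δ : ℝ) : ℝ := H2 (1 / 2 - √(δ * (1 - δ)))

/-- `C` is a code of minimum distance at least `d`. -/
def IsCode {n : ℕ} (d : ℕ) (C : Finset (Fin n → Bool)) : Prop :=
  ∀ x ∈ C, ∀ y ∈ C, x ≠ y → d ≤ hammingDist x y

/-- The largest size of a code of minimum distance at least `d` contained in `S`. -/
noncomputable def A {n : ℕ} (S : Finset (Fin n → Bool)) (d : ℕ) : ℕ :=
  sSup {k | ∃ C : Finset (Fin n → Bool), C ⊆ S ∧ IsCode d C ∧ C.card = k}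

/-- The subsets of `{0,1}^n` with `⌊2^{s n}⌋` elements. -/
noncomputable def subsets (s : ℝ) (n : ℕ) : Finset (Finset (Fin n → Bool)) :=
  powersetCard ⌊(2 : ℝ) ^ (s * n)⌋₊ univ

lemma A_eq {n : ℕ} (S : Finset (Fin n → Bool)) (d : ℕ) : A S d = Pool.Agent.W306.GV.largest S d := by
  apply le_antisymm
  · apply csSup_le'
    rintro k ⟨C, hC1, hC2, rfl⟩
    exact Pool.Agent.W306.GV.le_largest hC1 hC2
  · obtain ⟨C, h1, h2, h3⟩ := Pool.Agent.W306.GV.exists_largest S d
    refine le_csSup ⟨S.card, ?_⟩ ⟨C, h1, h2, h3⟩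
    rintro k ⟨D, hD1, -, rfl⟩
    exact Finset.card_le_card hD1

lemma H2_eq (x : ℝ) : H2 x = Real.binEntropy x / Real.log 2 := by
  unfold H2 Real.logb
  rw [Real.binEntropy_eq_negMulLog_add_negMulLog_one_sub]
  unfold Real.negMulLog
  ring

lemma two_pow_eq (x : ℝ) (n : ℕ) : (2 : ℝ) ^ (x * n) = Real.exp (x * Real.log 2 * n) := by
  rw [Real.rpow_def_of_pos (by norm_num)]
  congr 1
  ring

lemma A_ge_one {s : ℝ} (hs0 : 0 ≤ s) {n : ℕ} {S : Finset (Fin n → Bool)} (hS : S ∈ subsets s n) (d : ℕ) :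
    1 ≤ A S d := by
  rw [subsets, Finset.mem_powersetCard] at hS
  rw [A_eq]
  apply Pool.Agent.W306.GV.one_le_largest
  rw [hS.2, Nat.one_le_floor_iff]
  exact Real.one_le_rpow (by norm_num) (by positivity)

open Pool.Agent.W306.GV in
open scoped Classical in
lemma upper (δ : ℝ) (h0 : 0 < δ) (h1 : δ < 1 / 2) (s : ℝ) (hs0 : 0 ≤ s)
    (hs1 : s ≤ ((1 - H2 δ) + LP δ) / 2) (ε : ℝ) (hε : 0 < ε) :
    ∀ᶠ n : ℕ in atTop,
      (((subsets s n).filter (fun S => min s (1 - H2 δ) + ε < Real.logb 2 (A S ⌈δ * n⌉₊) / n)).card : ℝ) ≤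
      Real.exp (-(ε * Real.log 2 / 2 * n)) * ((2 ^ n : ℕ).choose ⌊(2 : ℝ) ^ (s * n)⌋₊ : ℝ) := by
  have hL : 0 < Real.log 2 := Real.log_pos (by norm_num)
  have hH : H2 δ = Real.binEntropy δ / Real.log 2 := H2_eq δ
  have hLP : LP δ = Real.binEntropy (w1 δ) / Real.log 2 := H2_eq _
  have hLP1 : LP δ ≤ 1 := by
    rw [hLP, div_le_one hL]
    exact Real.binEntropy_le_log_two
  have hH0 : 0 ≤ H2 δ := by
    rw [hH]
    exact div_nonneg (Real.binEntropy_nonneg h0.le (by linarith)) hL.le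
  have hup := upper_asym (δ := δ) (ε := ε * Real.log 2) (σ := s * Real.log 2) h0 h1 (by positivity) (by
    have h2 := mul_le_mul_of_nonneg_right hs1 hL.le
    refine h2.trans (le_of_eq ?_)
    unfold cc
    rw [hH, hLP]
    field_simp
    ring)
  filter_upwards [hup, eventually_ge_atTop 1] with n hn hn1
  have hnR : (0 : ℝ) < n := by exact_mod_cast hn1
  have hrhs : 0 ≤ Real.exp (-(ε * Real.log 2 / 2 * n)) * ((2 ^ n : ℕ).choose ⌊(2 : ℝ) ^ (s * n)⌋₊ : ℝ) := by
    positivity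
  rcases lt_or_ge s (1 - H2 δ) with hlt | hge
  · -- trivial bound
    have : (subsets s n).filter (fun S => min s (1 - H2 δ) + ε < Real.logb 2 (A S ⌈δ * n⌉₊) / n) = ∅ := by
      rw [Finset.eq_empty_iff_forall_notMem]
      intro S hS
      rw [Finset.mem_filter, min_eq_left hlt.le] at hS
      have hA1 := A_ge_one hs0 hS.1 ⌈δ * n⌉₊
      rw [subsets, Finset.mem_powersetCard] at hS
      have h3 : A S ⌈δ * n⌉₊ ≤ ⌊(2 : ℝ) ^ (s * n)⌋₊ := by
        rw [A_eq, ← hS.1.2]
        exact largest_le S _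
      have h4 : (A S ⌈δ * n⌉₊ : ℝ) ≤ (2 : ℝ) ^ (s * n) :=
        le_trans (by exact_mod_cast h3) (Nat.floor_le (by positivity))
      have h5 : Real.logb 2 (A S ⌈δ * n⌉₊) ≤ s * n := by
        rw [Real.logb_le_iff_le_rpow (by norm_num) (by exact_mod_cast hA1)]
        exact h4
      have h6 : Real.logb 2 (A S ⌈δ * n⌉₊) / n ≤ s := by
        rw [div_le_iff₀ hnR]
        exact h5
      linarith [hS.2]
    rw [this, Finset.card_empty, Nat.cast_zero]
    exact hrhs
  · rw [min_eq_right hge]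
    set M : ℕ := ⌈Real.exp ((Real.log 2 - Real.binEntropy δ + ε * Real.log 2) * n)⌉₊ with hM
    have hsub : (subsets s n).filter (fun S => 1 - H2 δ + ε < Real.logb 2 (A S ⌈δ * n⌉₊) / n) ⊆
        (powersetCard ⌊(2 : ℝ) ^ (s * n)⌋₊ (univ : Finset (Fin n → Bool))).filter
          (fun S => M ≤ largest S ⌈δ * n⌉₊) := by
      intro S hS
      rw [Finset.mem_filter] at hS ⊢
      refine ⟨hS.1, ?_⟩
      have hA1 := A_ge_one hs0 hS.1 ⌈δ * n⌉₊
      rw [← A_eq, hM, Nat.ceil_le]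
      have h3 := hS.2
      rw [lt_div_iff₀ hnR, Real.lt_logb_iff_rpow_lt (by norm_num) (by exact_mod_cast hA1), two_pow_eq] at h3
      refine le_trans (le_of_eq ?_) h3.le
      congr 1
      rw [hH]
      field_simp
    refine le_trans (Nat.cast_le.2 (Finset.card_le_card hsub)) ?_
    have h4 := hn M ⌊(2 : ℝ) ^ (s * n)⌋₊ (Nat.le_ceil _)
      ((Nat.floor_le (by positivity)).trans (le_of_eq (two_pow_eq s n))) (by
        have h5 : s ≤ 1 := by linarith
        have h6 : (2 : ℝ) ^ (s * n) ≤ 2 ^ n := by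
          rw [← Real.rpow_natCast]
          apply Real.rpow_le_rpow_of_exponent_le (by norm_num)
          nlinarith
        have h7 : (⌊(2 : ℝ) ^ (s * n)⌋₊ : ℝ) ≤ ((2 ^ n : ℕ) : ℝ) := by
          push_cast
          exact (Nat.floor_le (by positivity)).trans h6
        exact_mod_cast h7)
    exact h4

open Pool.Agent.W306.GV in
open scoped Classical in
lemma lower (δ : ℝ) (h0 : 0 < δ) (h1 : δ < 1 / 2) (s : ℝ) (hs0 : 0 ≤ s) (hs1 : s ≤ 1)
    (ε : ℝ) (hε : 0 < ε) :
    ∀ᶠ n : ℕ in atTop,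
      (((subsets s n).filter (fun S => Real.logb 2 (A S ⌈δ * n⌉₊) / n < min s (1 - H2 δ) - ε)).card : ℝ) ≤
      Real.exp (-(ε * Real.log 2 / 4 * n)) * ((2 ^ n : ℕ).choose ⌊(2 : ℝ) ^ (s * n)⌋₊ : ℝ) := by
  have hL : 0 < Real.log 2 := Real.log_pos (by norm_num)
  have hH : H2 δ = Real.binEntropy δ / Real.log 2 := H2_eq δ
  set ρ := min s (1 - H2 δ) with hρ
  have hρs : ρ ≤ s := min_le_left _ _
  have hρg : ρ * Real.log 2 ≤ Real.log 2 - Real.binEntropy δ := by
    have : ρ ≤ 1 - H2 δ := min_le_right _ _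
    have h2 := mul_le_mul_of_nonneg_right this hL.le
    rw [hH] at h2
    refine h2.trans (le_of_eq ?_)
    field_simp
  have c1 := log_small (show 0 < ε * Real.log 2 / 8 by positivity)
  have c2 : ∀ᶠ n : ℕ in atTop, 8 * Real.log 2 / (ε * Real.log 2) ≤ (n : ℝ) :=
    tendsto_natCast_atTop_atTop.eventually_ge_atTop _
  filter_upwards [c1, c2, eventually_ge_atTop 1] with n g1 g2 hn1
  have hnR : (0 : ℝ) < n := by exact_mod_cast hn1
  have hrhs : 0 ≤ Real.exp (-(ε * Real.log 2 / 4 * n)) * ((2 ^ n : ℕ).choose ⌊(2 : ℝ) ^ (s * n)⌋₊ : ℝ) := by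
    positivity
  rw [div_le_iff₀ (by positivity)] at g2
  have hεn : 8 ≤ ε * n := by
    by_contra hcon
    push Not at hcon
    have : n * (ε * Real.log 2) < 8 * Real.log 2 := by nlinarith
    linarith
  rcases le_or_gt ρ ε with hle | hgt
  · have : (subsets s n).filter (fun S => Real.logb 2 (A S ⌈δ * n⌉₊) / n < ρ - ε) = ∅ := by
      rw [Finset.eq_empty_iff_forall_notMem]
      intro S hS
      rw [Finset.mem_filter] at hS
      have hA1 := A_ge_one hs0 hS.1 ⌈δ * n⌉₊
      have h2 : 0 ≤ Real.logb 2 (A S ⌈δ * n⌉₊) / n :=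
        div_nonneg (Real.logb_nonneg (by norm_num) (by exact_mod_cast hA1)) hnR.le
      linarith [hS.2]
    rw [this, Finset.card_empty, Nat.cast_zero]
    exact hrhs
  · set m' : ℕ := ⌊(2 : ℝ) ^ ((ρ - ε / 2) * n)⌋₊ with hm'
    have hfl : (m' : ℝ) ≤ (2 : ℝ) ^ ((ρ - ε / 2) * n) := Nat.floor_le (by positivity)
    have hfl2 : (2 : ℝ) ^ ((ρ - ε / 2) * n) < m' + 1 := Nat.lt_floor_add_one _
    have h16 : (2 : ℝ) ^ (4 : ℝ) ≤ (2 : ℝ) ^ (ε / 2 * n) :=
      Real.rpow_le_rpow_of_exponent_le (by norm_num) (by linarith)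
    have h16' : (16 : ℝ) ≤ (2 : ℝ) ^ (ε / 2 * n) := by
      refine le_trans (le_of_eq ?_) h16
      norm_num
    have hsplit : (2 : ℝ) ^ ((ρ - ε / 2) * n) = (2 : ℝ) ^ ((ρ - ε) * n) * (2 : ℝ) ^ (ε / 2 * n) := by
      rw [← Real.rpow_add (by norm_num)]
      congr 1
      ring
    have hone : (1 : ℝ) ≤ (2 : ℝ) ^ ((ρ - ε) * n) := by
      apply Real.one_le_rpow (by norm_num)
      have : 0 < ρ - ε := by linarith
      positivity
    have hm2 : 2 ≤ m' := by
      have : (2 : ℝ) ≤ m' := by nlinarith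
      exact_mod_cast this
    have hmm : m' ≤ ⌊(2 : ℝ) ^ (s * n)⌋₊ := by
      apply Nat.floor_le_floor
      apply Real.rpow_le_rpow_of_exponent_le (by norm_num)
      nlinarith
    have hm : ⌊(2 : ℝ) ^ (s * n)⌋₊ ≤ 2 ^ n := by
      have h6 : (2 : ℝ) ^ (s * n) ≤ 2 ^ n := by
        rw [← Real.rpow_natCast]
        apply Real.rpow_le_rpow_of_exponent_le (by norm_num)
        nlinarith
      have h7 : (⌊(2 : ℝ) ^ (s * n)⌋₊ : ℝ) ≤ ((2 ^ n : ℕ) : ℝ) := by
        push_cast
        exact (Nat.floor_le (by positivity)).trans h6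
      exact_mod_cast h7
    have hlow := lower_fin (n := n) (d := ⌈δ * n⌉₊) hm2 hmm hm
    have hsub : (subsets s n).filter (fun S => Real.logb 2 (A S ⌈δ * n⌉₊) / n < ρ - ε) ⊆
        (powersetCard ⌊(2 : ℝ) ^ (s * n)⌋₊ (univ : Finset (Fin n → Bool))).filter
          (fun S => 2 * largest S ⌈δ * n⌉₊ < m') := by
      intro S hS
      rw [Finset.mem_filter] at hS ⊢
      refine ⟨hS.1, ?_⟩
      have hA1 := A_ge_one hs0 hS.1 ⌈δ * n⌉₊
      have h3 := hS.2
      rw [div_lt_iff₀ hnR, Real.logb_lt_iff_lt_rpow (by norm_num) (by exact_mod_cast hA1)] at h3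
      rw [← A_eq]
      have : (2 : ℝ) * A S ⌈δ * n⌉₊ < m' := by nlinarith
      exact_mod_cast this
    refine le_trans (Nat.cast_le.2 (Finset.card_le_card hsub)) (hlow.trans ?_)
    refine mul_le_mul_of_nonneg_right ?_ (by positivity)
    have hball := ball_le h0 h1 n
    rw [div_le_iff₀ (by positivity)]
    have h2n : (2 : ℝ) ^ n = Real.exp (Real.log 2 * n) := by
      rw [mul_comm, Real.exp_nat_mul, Real.exp_log (by norm_num)]
    have hn8 : (n : ℝ) + 1 ≤ Real.exp (ε * Real.log 2 / 8 * n) := by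
      rw [← Real.log_le_iff_le_exp (by positivity)]
      exact g1
    have h2e : (2 : ℝ) ≤ Real.exp (ε * Real.log 2 / 8 * n) := by
      rw [← Real.log_le_iff_le_exp (by norm_num)]
      nlinarith
    calc 2 * (m' : ℝ) * ∑ k ∈ range ⌈δ * n⌉₊, (n.choose k : ℝ)
        ≤ Real.exp (ε * Real.log 2 / 8 * n) * Real.exp ((ρ - ε / 2) * Real.log 2 * n) *
            (Real.exp (ε * Real.log 2 / 8 * n) * Real.exp (Real.binEntropy δ * n)) := by
          have hfl' : (m' : ℝ) ≤ Real.exp ((ρ - ε / 2) * Real.log 2 * n) := hfl.trans (le_of_eq (two_pow_eq _ n))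
          have hball' : ∑ k ∈ range ⌈δ * n⌉₊, (n.choose k : ℝ) ≤
              Real.exp (ε * Real.log 2 / 8 * n) * Real.exp (Real.binEntropy δ * n) :=
            hball.trans (mul_le_mul_of_nonneg_right hn8 (Real.exp_pos _).le)
          exact mul_le_mul (mul_le_mul h2e hfl' (by positivity) (Real.exp_pos _).le) hball'
            (Finset.sum_nonneg fun _ _ => Nat.cast_nonneg _) (by positivity)
      _ = Real.exp (ε * Real.log 2 / 8 * n + (ρ - ε / 2) * Real.log 2 * n +
            (ε * Real.log 2 / 8 * n + Real.binEntropy δ * n)) := by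
          rw [← Real.exp_add, ← Real.exp_add, ← Real.exp_add]
      _ ≤ Real.exp (-(ε * Real.log 2 / 4 * n) + Real.log 2 * n) := by
          apply Real.exp_le_exp.2
          nlinarith
      _ = _ := by rw [Real.exp_add, h2n]

open scoped Classical in
/-- **Main theorem.** For all but an exponentially small proportion of the sets `S ⊆ {0,1}^n` with
`⌊2^{sn}⌋` elements, `0 ≤ s ≤ ((1 - H₂(δ)) + H₂(1/2 - √(δ(1-δ))))/2`, the largest code of minimum
distance at least `δ n` inside `S` has rate `min(s, 1 - H₂(δ))` up to `ε`. -/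
theorem result (δ : ℝ) (h0 : 0 < δ) (h1 : δ < 1 / 2) (s : ℝ) (hs0 : 0 ≤ s)
    (hs1 : s ≤ ((1 - H2 δ) + LP δ) / 2) (ε : ℝ) (hε : 0 < ε) :
    ∃ η : ℝ, 0 < η ∧ ∀ᶠ n : ℕ in atTop,
      (((subsets s n).filter (fun S => ε <
        |Real.logb 2 (A S ⌈δ * n⌉₊) / n - min s (1 - H2 δ)|)).card : ℝ) ≤
      (2 : ℝ) ^ (-(η * n)) * ((subsets s n).card : ℝ) := by
  have hL : 0 < Real.log 2 := Real.log_pos (by norm_num)
  have hH0 : 0 ≤ H2 δ := by
    rw [H2_eq]
    exact div_nonneg (Real.binEntropy_nonneg h0.le (by linarith)) hL.le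
  have hLP1 : LP δ ≤ 1 := by
    unfold LP
    rw [H2_eq, div_le_one hL]
    exact Real.binEntropy_le_log_two
  have hup := upper δ h0 h1 s hs0 hs1 ε hε
  have hlo := lower δ h0 h1 s hs0 (by linarith) ε hε
  refine ⟨ε / 8, by positivity, ?_⟩
  have c2 : ∀ᶠ n : ℕ in atTop, 8 / ε ≤ (n : ℝ) :=
    tendsto_natCast_atTop_atTop.eventually_ge_atTop _
  filter_upwards [hup, hlo, c2, eventually_ge_atTop 1] with n g1 g2 g3 hn1
  have hnR : (0 : ℝ) < n := by exact_mod_cast hn1
  rw [div_le_iff₀ hε] at g3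
  have hcard : ((subsets s n).card : ℝ) = ((2 ^ n : ℕ).choose ⌊(2 : ℝ) ^ (s * n)⌋₊ : ℝ) := by
    unfold subsets
    rw [Finset.card_powersetCard, Finset.card_univ]
    simp
  rw [hcard]
  have hsub : (subsets s n).filter (fun S => ε <
        |Real.logb 2 (A S ⌈δ * n⌉₊) / n - min s (1 - H2 δ)|) ⊆
      (subsets s n).filter (fun S => min s (1 - H2 δ) + ε < Real.logb 2 (A S ⌈δ * n⌉₊) / n) ∪
      (subsets s n).filter (fun S => Real.logb 2 (A S ⌈δ * n⌉₊) / n < min s (1 - H2 δ) - ε) := by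
    intro S hS
    rw [Finset.mem_filter] at hS
    rw [Finset.mem_union, Finset.mem_filter, Finset.mem_filter]
    rcases lt_abs.1 hS.2 with h | h
    · left
      exact ⟨hS.1, by linarith⟩
    · right
      exact ⟨hS.1, by linarith⟩
  have h3 : (((subsets s n).filter (fun S => ε <
        |Real.logb 2 (A S ⌈δ * n⌉₊) / n - min s (1 - H2 δ)|)).card : ℝ) ≤
      (((subsets s n).filter (fun S => min s (1 - H2 δ) + ε < Real.logb 2 (A S ⌈δ * n⌉₊) / n)).card : ℝ) +
      (((subsets s n).filter (fun S => Real.logb 2 (A S ⌈δ * n⌉₊) / n < min s (1 - H2 δ) - ε)).card : ℝ) := by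
    exact_mod_cast (Finset.card_le_card hsub).trans (Finset.card_union_le _ _)
  refine h3.trans ((add_le_add g1 g2).trans ?_)
  rw [← add_mul]
  refine mul_le_mul_of_nonneg_right ?_ (by positivity)
  have e1 : Real.exp (-(ε * Real.log 2 / 2 * n)) ≤ Real.exp (-(ε * Real.log 2 / 4 * n)) := by
    apply Real.exp_le_exp.2
    have : 0 ≤ ε * Real.log 2 / 4 * n := by positivity
    linarith
  have e2 : (2 : ℝ) ^ (-(ε / 8 * n)) = Real.exp (ε * Real.log 2 / 8 * n) * Real.exp (-(ε * Real.log 2 / 4 * n)) := by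
    rw [← Real.exp_add, Real.rpow_def_of_pos (by norm_num)]
    congr 1
    ring
  have e3 : (2 : ℝ) ≤ Real.exp (ε * Real.log 2 / 8 * n) := by
    rw [← Real.log_le_iff_le_exp (by norm_num)]
    nlinarith
  rw [e2]
  nlinarith [Real.exp_pos (-(ε * Real.log 2 / 4 * n))]

end Pool.Agent.Results.MP_0430e4_lc.RandomSubsets
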